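import Mathlib
import Pool.Agent.Helper63.RCA.Main

/-!
# `RRP_k` and `RRP_{k+1}` are equivalent over `RCA₀` for every `k ≥ 2`

The definitions (`L₂`-structures, `RCA₀`, coded finite sets, copies, Rado graphs, `RRP_k`) are in
`Pool/Agent/Helper63/RCA/Defs.lean`.

Idea of the proof, carried out inside an arbitrary model of `RCA₀`.  Let `c` be a `(k+1)`-bounded
coloring of the copies of `G`.  Let `g` identify, in every color class of `c`, only the two least
copies.  Then `g` is `2`-bounded, hence `k`-bounded, and `RRP_k` gives a Rado subgraph `X` on which
`g` is injective; so no color class of `c` of size `k+1` lies inside `X`, that is, `c` is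
`k`-bounded on the copies inside `X`.  By primitive recursion there is an increasing embedding `F`
of the whole Rado graph into its induced subgraph on `X`.  Pull `c` back along `F`, apply `RRP_k`
once more, and push the resulting Rado subgraph `Y` forward to `F[Y]`.
-/

set_option autoImplicit false

namespace Pool.Agent.Results.MP_bcc052_lc.BoundEquivalence

open Pool.Agent.Helper63.RCA

/-- **`RRP_k ↔ RRP_{k+1}` over `RCA₀`, for every `k ≥ 2`.**

In every model `M` of `RCA₀`: the standard computable copy `StdRado M` of the Rado graph is a set of
`M` and a Rado graph in the sense of `M`; and for every set `E` of `M` that is (the edge relation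
of) a Rado graph on the numbers of `M` (in particular for `StdRado M` and for every other computable
copy that `RCA₀` proves to be a Rado graph) and every standard `k ≥ 2`, `RRP_k` and `RRP_{k+1}` are
equivalent in `M`.  By the completeness theorem this says that `RCA₀` proves
`RRP_k ↔ RRP_{k+1}` for every `k ≥ 2`. -/
theorem result (M : L2Structure) (hM : IsModelRCA0 M) :
    (StdRado M ∈ M.S ∧ IsGraph (StdRado M) ∧ IsRado (StdRado M) Set.univ) ∧
    ∀ E ∈ M.S, IsGraph E → IsRado E Set.univ → ∀ k : ℕ, 2 ≤ k →
      (RRP M k E ↔ RRP M (k + 1) E) := by
  haveI : RCA0 M := ⟨hM⟩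
  exact ⟨⟨stdRado_mem, stdRado_isGraph, stdRado_isRado⟩,
    fun E hE hG _ k hk => ⟨rrp_up hE hG hk, rrp_down⟩⟩

end Pool.Agent.Results.MP_bcc052_lc.BoundEquivalence
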